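import Pool.Agent.W894.HT.Lib

/-!
# HT-SIZE: the numbers of Hamiltonian paths and cycles have polynomial size
-/

set_option autoImplicit false

namespace Pool.Agent.W991.HT

open Pool.Agent.NPC Pool.Agent.W894.HT

theorem card_le (n : ℕ) (P : List ℕ → Prop) (h : ∀ l, P l → l.Perm (List.range n)) :
    Nat.card {l // P l} ≤ n.factorial := by
  classical
  have h1 : Nat.card {l // P l} ≤ Nat.card ((List.range n).permutations.toFinset : Set (List ℕ)) := by
    refine Nat.card_le_card_of_injective (fun l => ⟨l.1, ?_⟩) ?_
    · rw [Finset.mem_coe, List.mem_toFinset, List.mem_permutations]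
      exact h l.1 l.2
    · intro a b hab
      exact Subtype.ext (congrArg (fun x : ((List.range n).permutations.toFinset : Set (List ℕ)) =>
        (x : List ℕ)) hab)
  refine le_trans h1 ?_
  rw [Nat.card_coe_set_eq, Set.ncard_coe_finset]
  refine le_trans (List.toFinset_card_le _) ?_
  rw [List.length_permutations, List.length_range]

theorem size_of (n m : ℕ) (h : m ≤ n.factorial) : m.size ≤ n * n + 1 := by
  rw [Nat.size_le]
  have h1 : n.factorial ≤ n ^ n := Nat.factorial_le_pow n
  have h2 : n ^ n ≤ (2 ^ n) ^ n := Nat.pow_le_pow_left Nat.lt_two_pow_self.le n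
  have h3 : (2 ^ n) ^ n = 2 ^ (n * n) := by rw [← pow_mul]
  have h4 : 2 ^ (n * n) < 2 ^ (n * n + 1) := Nat.pow_lt_pow_right (by norm_num) (Nat.lt_succ_self _)
  omega

theorem main : S_SIZE := by
  classical
  refine ⟨Polynomial.X * Polynomial.X + Polynomial.C 1, fun A => ?_⟩
  have hn : A.length ≤ sz A := (length_lt_sz A).le
  have he : (Polynomial.X * Polynomial.X + Polynomial.C 1 : Polynomial ℕ).eval (sz A) = sz A * sz A + 1 := by
    simp
  rw [he]
  have hmul : A.length * A.length + 1 ≤ sz A * sz A + 1 := Nat.add_le_add_right (Nat.mul_le_mul hn hn) 1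
  have hp : numHP A ≤ A.length.factorial := card_le _ _ fun l hl => hl.1
  have hc : numHC A ≤ A.length.factorial := card_le _ _ fun l hl => hl.1
  constructor
  · refine le_trans (size_of A.length _ ?_) hmul
    unfold hpT
    split_ifs
    · exact hp
    · exact Nat.zero_le _
  · refine le_trans (size_of A.length _ ?_) hmul
    unfold hcT
    split_ifs
    · exact hc
    · exact Nat.zero_le _

end Pool.Agent.W991.HT
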